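import Pool.Agent.Lib.C8da183.Rank

/-!
# Regulating quotients and ordinal sums of critical typesets

Let `G` be an almost completely decomposable group whose poset of critical types is an ordinal
sum, given by a function `ρ` on the critical elements such that `ρ x < ρ y` implies that the type
of `y` is smaller than the type of `x`. A finite group `X` is a regulating quotient of `G` if and
only if it has a chain of subgroups `0 = Y 0 ≤ Y 1 ≤ … ≤ Y m = X` such that `Y (i + 1) / Y i` is a
regulating quotient of the layer `L i` of `G`. If moreover the critical types of the same rank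
form a forest, for instance an antichain, then each layer has exactly one regulating quotient, the
group `L i / ∑ L i (τ)`, so all regulating quotients of `G` are determined.
-/

namespace Pool.Agent.Results.MP_8da183_al.OrdinalSums

open Pool.Agent.Lib.C8da183

theorem result {V : Type*} [AddCommGroup V] [Module ℚ V] (G : AddSubgroup V) (hG : IsACD G)
    (ρ : V → ℕ) (m : ℕ) (hm : ∀ x, IsCritical G x → ρ x < m)
    (hρ : ∀ x y, IsCritical G x → IsCritical G y → ρ x < ρ y →
      TypeLE G y G x ∧ ¬ TypeLE G x G y)
    (X : Type*) [AddCommGroup X] [Finite X] :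
    (RegQuot G X ↔ ∃ Y : ℕ → AddSubgroup X, Y 0 = ⊥ ∧ Y m = ⊤ ∧ ∀ i < m, Y i ≤ Y (i + 1) ∧
      RegQuot (layer G ρ i) (factor (Y (i + 1)) (Y i))) ∧
    ((∀ x y z, IsCritical G x → IsCritical G y → IsCritical G z → ρ x = ρ y → ρ x = ρ z →
        TypeLE G x G y → TypeLE G x G z → TypeLE G y G z ∨ TypeLE G z G y) →
      (RegQuot G X ↔ ∃ Y : ℕ → AddSubgroup X, Y 0 = ⊥ ∧ Y m = ⊤ ∧ ∀ i < m, Y i ≤ Y (i + 1) ∧
        Nonempty (factor (layer G ρ i) (critSum (layer G ρ i)) ≃+ factor (Y (i + 1)) (Y i)))) := by
  obtain ⟨C, J, _, _, b, f, hC, R⟩ := exists_ref_reg hG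
  have hcut : ∀ i, IsCut G (part G ρ i) := isCut_part R hρ
  have h1 := regQuot_tower (part G ρ) (part_zero G ρ) m G hG (part_top hG hm)
    (fun i _ => part_mono G ρ (Nat.le_succ i)) (fun i _ => hcut i) X
  refine ⟨h1, fun hfo => h1.trans ?_⟩
  refine exists_congr fun Y => and_congr_right fun _ => and_congr_right fun _ =>
    forall_congr' fun i => forall_congr' fun hi => and_congr_right fun _ => ?_
  have hL : IsACD (layer G ρ i) :=
    ((hcut (i + 1)).of_le hG (hcut i) (part_mono G ρ (Nat.le_succ i))).quo_isACD
      ((hcut (i + 1)).isACD hG)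
  exact (layer_isForest hG hρ hfo i).regQuot_iff hL

end Pool.Agent.Results.MP_8da183_al.OrdinalSums
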