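import Pool.Agent.Lib.RkP.BrkInd

/-!
# The regulating quotients of an almost completely decomposable group, prime by prime

Let `G` be an almost completely decomposable group with a regulating subgroup `C`, and `X` a finite
abelian group. For a finite set `S` of types let `G(S)` be the sum of the groups `G(τ)`, `τ ∈ S`.
(a) `X` is a regulating quotient of `G` if and only if for every prime `p` the `p`-part of `X` is
the `p`-part of some regulating quotient. (b) If for all `S` the torsion subgroup of `G / G(S)` has
`p`-rank at most one (by RankFormula this means that the `p`-part of some regulating quotient is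
cyclic), this holds at `p` if and only if `v_p |X| = v_p [G : C]` and `|X / p ^ k X|` is bounded by
numbers given by the gaps of the break set of `G` at `p`. (c) If the `p`-part of `X` is cyclic,
elementary abelian or `Z(p^2) + Z(p)^k`, or `p^4` does not divide `[G : C]`, or no elements of
order `p^3` occur, this holds at `p` if and only if `v_p |X| = v_p [G : C]` and the `p`-rank `r` of
`X` satisfies two conditions: for every `S` the torsion subgroup of `G / G(S)` has `p`-rank at most
`r`; and `G` has a subgroup `K` of index at least `p ^ r` with `pG ≤ K` and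
`K + G(τ) = K + G^#(τ)` for all `τ`.
-/

namespace Pool.Agent.Results.MP_8da183_al.PrimewiseDetermination

open Pool.Agent.Lib.C8da183 Pool.Agent.Lib.RkQ Pool.Agent.Lib.RkP

/-- `|X / mX|`, which for `m` prime is `m` to the power of the `m`-rank of the finite group `X`. -/
noncomputable def modCard (X : Type*) [AddCommGroup X] (m : ℕ) : ℕ :=
  (nsmulAddMonoidHom (α := X) m).range.index

theorem result {V : Type*} [AddCommGroup V] [Module ℚ V] (G C : AddSubgroup V) (hG : IsACD G)
    (hC : IsRegulating G C) (X : Type*) [AddCommGroup X] [Finite X] :
    (RegQuot G X ↔ ∀ p : ℕ, p.Prime → Occurs G X p) ∧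
    (∀ p : ℕ, p.Prime → TorCond G p 1 →
      (Occurs G X p ↔ (Nat.card X).factorization p = (C.relIndex G).factorization p ∧
        ∀ k, modCard X (p ^ k) ≤
          p ^ gapSum (breaks G C p) ((C.relIndex G).factorization p) k)) ∧
    ∀ p r : ℕ, p.Prime → modCard X p = p ^ r →
      (r ≤ 1 ∨ (Nat.card X).factorization p ≤ r + 1 ∨ ¬ p ^ 4 ∣ C.relIndex G ∨
        (NoCube X p ∧ ∀ C', IsRegulating G C' → NoCube (G ⧸ C'.addSubgroupOf G) p)) →
      (Occurs G X p ↔ (Nat.card X).factorization p = (C.relIndex G).factorization p ∧
        TorCond G p r ∧ FullCond G p r) := by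
  classical
  refine ⟨regQuot_iff_occurs hG hC, fun p hp h => occurs_one hG hC hp h,
    fun p r hp hr h => ?_⟩
  obtain ⟨J, _, _, b, f, R⟩ := hC.exists_ref hG
  exact (occurs_rank hG R hC hp hr h).trans
    (and_congr Iff.rfl (and_congr (rankCond_iff R hC hp) Iff.rfl))

end Pool.Agent.Results.MP_8da183_al.PrimewiseDetermination
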