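import Pool.Agent.Lib.RkP.Tor2

/-!
# The ranks of the regulating quotients of arbitrary almost completely decomposable groups

Let `G` be an almost completely decomposable group. For a finite set `S` of types let `G(S)` be the
sum of the groups `G(τ)`, `τ ∈ S`. (a) The least possible `p`-ranks of the regulating quotients of
`G` are the largest `p`-ranks of the torsion subgroups of the groups `G / G(S)`; they are attained
by one regulating quotient for all primes `p` at once. (b) The `p`-ranks that occur, simultaneously
for all primes. (c) `G` has a cyclic regulating quotient if and only if for every finite set `S` of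
types the torsion subgroup of `G / G(S)` is cyclic.
-/

namespace Pool.Agent.Results.MP_8da183_al.RankFormula

open Pool.Agent.Lib.C8da183 Pool.Agent.Lib.RkQ Pool.Agent.Lib.RkP

/-- `|X / pX|`, which is `p` to the power of the `p`-rank of the finite group `X`. -/
noncomputable def modCard (X : Type*) [AddCommGroup X] (p : ℕ) : ℕ :=
  (nsmulAddMonoidHom (α := X) p).range.index

theorem result {V : Type*} [AddCommGroup V] [Module ℚ V] (G : AddSubgroup V) (hG : IsACD G) :
    (∀ d : ℕ → ℕ, (∃ C, IsRegulating G C ∧ ∀ p, p.Prime →
        modCard (G ⧸ C.addSubgroupOf G) p ≤ p ^ d p) ↔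
      ∀ p, p.Prime → TorCond G p (d p)) ∧
    (∀ d : ℕ → ℕ, (∃ C, IsRegulating G C ∧ ∀ p, p.Prime →
        modCard (G ⧸ C.addSubgroupOf G) p = p ^ d p) ↔
      ∀ p, p.Prime → TorCond G p (d p) ∧ FullCond G p (d p)) ∧
    ((∃ C, IsRegulating G C ∧ IsAddCyclic (G ⧸ C.addSubgroupOf G)) ↔
      ∀ S : Finset V, (∀ x ∈ S, x ∈ G ∧ x ≠ 0) →
        IsAddCyclic (AddCommGroup.torsion (G ⧸ (GS G S).addSubgroupOf G))) := by
  classical
  obtain ⟨C, J, _, _, b, f, hC, R⟩ := exists_ref_reg hG
  refine ⟨fun d => ?_, fun d => ?_, ?_⟩
  · refine (rank_le_iff hG R hC d).trans (forall_congr' fun p => forall_congr' fun hp => ?_)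
    exact rankCond_iff R hC hp
  · refine (rank_iff hG R hC d).trans (forall_congr' fun p => forall_congr' fun hp => ?_)
    exact and_congr (rankCond_iff R hC hp) Iff.rfl
  · refine (cyclic_iff hG R hC).trans (Iff.trans ?_ (torCond_one_iff R))
    exact forall_congr' fun p => forall_congr' fun hp => rankCond_iff R hC hp

end Pool.Agent.Results.MP_8da183_al.RankFormula
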