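import Pool.Agent.Lib.H8da.Final

set_option autoImplicit false

/-!
Deciding whether a homocyclic group of exponent `p ^ 2` is a regulating quotient is NP-hard.
-/

namespace Pool.Agent.Results.MP_8da183_al.RegulatingHard

open Pool.Agent.Lib.H8da Pool.Agent.Lib.C8da183 Pool.Agent.Lib.P2ba8ab

/-- Let `p` be a prime. All groups `x.group p` given by finite data `x` are almost completely
decomposable. There is a function `f`, computable by a Turing machine in polynomial time, from
finite graphs to finite data such that for every graph `g` the direct sum `(f g).base p` of the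
given rank one groups is a regulating subgroup of `(f g).group p` that contains
`p • (f g).group p`, some `Z(p)^m` is a regulating quotient of `(f g).group p`, and `g` is
3-colourable if and only if some `Z(p^2)^r` is a regulating quotient of `(f g).group p`. -/
theorem result (p : ℕ) (hp : p.Prime) :
    (∀ x : Inst, IsACD (x.group p)) ∧
    ∃ f : Gr → Inst, Nonempty (Turing.TM2ComputableInPolyTime Gr.encode Inst.encode f) ∧
      ∀ g : Gr, IsRegulating ((f g).group p) ((f g).base p) ∧
        (∀ x ∈ (f g).group p, p • x ∈ (f g).base p) ∧
        (∃ m : ℕ, RegQuot ((f g).group p) (Fin m → ZMod p)) ∧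
        (g.G.Colorable 3 ↔ ∃ r : ℕ, RegQuot ((f g).group p) (Fin r → ZMod (p ^ 2))) :=
  reduction p hp

end Pool.Agent.Results.MP_8da183_al.RegulatingHard
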